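import Pool.Agent.MP_5f72fe_nt.H25.SpecD
import Pool.Agent.MP_5f72fe_nt.H97.EI7

/-! The commutation relation at `7` for the full theta series. -/

namespace Pool.Agent.MP_5f72fe_nt.H85

open Pool.Agent.MP_5f72fe_nt.H3 Pool.Agent.MP_5f72fe_nt.H25 Finset
open Pool.Agent.MP_5f72fe_nt.H97 (un qf Mk ad rd cnt ch key7 ad_ad qf_Mk rd_Mk rd_qf rd_zero
  Mk_smul Mk_ad' smul_inj qf_smul lift49)

/-- the vectors in the basis of the lattice -/
noncomputable def R1 (N : ℕ) : Finset V := (Rp N).image un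

theorem mem_Rp {N : ℕ} {v : V} : v ∈ Rp N ↔
    v.2.1 ^ 2 + 3 * v.1 ^ 2 + 3 * v.2.2 ^ 2 = N ∧ v.2.1 % 2 = v.2.2 % 2 := by
  simp only [Rp, mem_filter, mem_product, mem_Icc]
  refine ⟨fun h => h.2, fun h => ⟨?_, h⟩⟩
  have key : ∀ x : ℤ, x ^ 2 ≤ N → -(N : ℤ) ≤ x ∧ x ≤ N := fun x hx =>
    ⟨by nlinarith [sq_nonneg (x + 1), sq_nonneg x], by nlinarith [sq_nonneg (x - 1), sq_nonneg x]⟩
  have h1 := h.1
  exact ⟨key _ (by nlinarith), key _ (by nlinarith), key _ (by nlinarith)⟩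

theorem em_un {N : ℕ} {v : V} (h : v ∈ Rp N) : H97.em (un v) = v := by
  obtain ⟨a, y, b⟩ := v
  have h1 := (mem_Rp.1 h).2
  simp only [H97.em, un, Prod.mk.injEq, true_and, and_true] at h1 ⊢
  omega

theorem mem_R1 {N : ℕ} {u : V} : u ∈ R1 N ↔ qf u = N := by
  have h1 : H97.em u ∈ Rp N ↔ qf u = N := by
    have e : (u.2.1 + 2 * u.2.2) ^ 2 + 3 * u.1 ^ 2 + 3 * u.2.1 ^ 2 = qf u := by
      simp only [qf]
      ring
    simp only [mem_Rp, H97.em, e]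
    exact ⟨fun h => h.1, fun h => ⟨h, by omega⟩⟩
  have h2 : ∀ u, un (H97.em u) = u := by
    rintro ⟨a, b, c⟩
    simp only [H97.em, un, Prod.mk.injEq, true_and]
    omega
  rw [← h1, R1, mem_image]
  constructor
  · rintro ⟨v, hv, rfl⟩
    rwa [em_un hv]
  · exact fun h => ⟨_, h, h2 u⟩

theorem th_eq (φ : V → ℤ) (N : ℕ) : THF φ N = ∑ u ∈ R1 N, φ (H97.em u) := by
  rw [R1, sum_image fun v hv w hw h => by rw [← em_un hv, h, em_un hw]]
  exact sum_congr rfl fun v hv => by rw [em_un hv]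

theorem t7_eq {φ : V → ℤ} (h : Inv φ) (u : V) :
    T7 φ (H97.em u) = ∑ k, φ (H97.em (Mk k u)) := by
  have h1 : ∀ v, φ (sg' v) = φ v := by
    intro v
    rw [← h.rot, ← h.hom 4 v (by norm_num)]
    congr 1
    simp only [sg, sg']
    refine Prod.ext ?_ (Prod.ext ?_ ?_) <;> simp <;> ring
  have e0 : sg (H97.em (Mk 0 u)) = (-2 : ℤ) • p7 1 (H97.em u) := by
    simp only [sg, H97.em, Mk, p7]
    refine Prod.ext ?_ (Prod.ext ?_ ?_) <;> simp <;> ring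
  have e1 : sg' (H97.em (Mk 1 u)) = (-2 : ℤ) • p7 (-1) (H97.em u) := by
    simp only [sg', H97.em, Mk, p7]
    refine Prod.ext ?_ (Prod.ext ?_ ?_) <;> simp <;> ring
  have e2 : H97.em (Mk 2 u) = q7 1 (H97.em u) := by
    simp only [H97.em, Mk, q7]
    refine Prod.ext ?_ (Prod.ext ?_ ?_) <;> simp <;> ring
  have e3 : sg (H97.em (Mk 3 u)) = q7 1 (sg (H97.em u)) := by
    simp only [sg, H97.em, Mk, q7]
    refine Prod.ext ?_ (Prod.ext ?_ ?_) <;> simp <;> ring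
  have e4 : sg' (H97.em (Mk 4 u)) = q7 1 (sg' (H97.em u)) := by
    simp only [sg', H97.em, Mk, q7]
    refine Prod.ext ?_ (Prod.ext ?_ ?_) <;> simp <;> ring
  have e5 : H97.em (Mk 5 u) = q7 (-1) (H97.em u) := by
    simp only [H97.em, Mk, q7]
    refine Prod.ext ?_ (Prod.ext ?_ ?_) <;> simp <;> ring
  have e6 : sg (H97.em (Mk 6 u)) = q7 (-1) (sg (H97.em u)) := by
    simp only [sg, H97.em, Mk, q7]
    refine Prod.ext ?_ (Prod.ext ?_ ?_) <;> simp <;> ring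
  have e7 : sg' (H97.em (Mk 7 u)) = q7 (-1) (sg' (H97.em u)) := by
    simp only [sg', H97.em, Mk, q7]
    refine Prod.ext ?_ (Prod.ext ?_ ?_) <;> simp <;> ring
  rw [Fin.sum_univ_eight, ← h.rot (H97.em (Mk 0 u)), ← h1 (H97.em (Mk 1 u)), ← h.rot (H97.em (Mk 3 u)),
    ← h1 (H97.em (Mk 4 u)), ← h.rot (H97.em (Mk 6 u)), ← h1 (H97.em (Mk 7 u)), e0, e1, e2, e3, e4, e5, e6, e7,
    h.hom _ _ (by norm_num), h.hom _ _ (by norm_num), T7]
  ring

open Classical in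
theorem sum_Mk (ψ : V → ℤ) (N : ℕ) (k : Fin 8) : ∑ u ∈ R1 N, ψ (Mk k u) =
    ∑ w ∈ R1 (49 * N), if ∃ x, Mk (ad k) w = (49 : ℤ) • x then ψ w else 0 := by
  rw [← sum_filter]
  refine sum_bij (fun u _ => Mk k u) (fun u hu => ?_) (fun u _ v _ h => ?_) (fun w hw => ?_)
    fun _ _ => rfl
  · refine mem_filter.2 ⟨mem_R1.2 ?_, u, Mk_ad' k u⟩
    rw [qf_Mk, mem_R1.1 hu]
    push_cast
    rfl
  · apply smul_inj (s := 49) (by norm_num)
    rw [← Mk_ad' k, ← Mk_ad' k, h]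
  · obtain ⟨h1, x, hx⟩ := mem_filter.1 hw
    have h2 := mem_R1.1 h1
    have h4 : Mk k x = w := by
      apply smul_inj (s := 49) (by norm_num)
      have := Mk_ad' (ad k) w
      rwa [ad_ad, hx, Mk_smul] at this
    have h5 := qf_Mk k x
    rw [h4] at h5
    push_cast at h2
    exact ⟨x, mem_R1.2 (by omega), h4⟩

theorem sum_seven (g : V → ℤ) (N : ℕ) :
    ∑ w ∈ R1 (49 * N), (if rd w = 0 then g w else 0) = ∑ u ∈ R1 N, g ((7 : ℤ) • u) := by
  rw [← sum_filter]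
  symm
  refine sum_bij (fun u _ => (7 : ℤ) • u) (fun u hu => ?_) (fun u _ v _ h => ?_) (fun w hw => ?_)
    fun _ _ => rfl
  · refine mem_filter.2 ⟨mem_R1.2 ?_, rd_zero.2 ⟨u, rfl⟩⟩
    rw [qf_smul, mem_R1.1 hu]
    push_cast
    rfl
  · exact smul_inj (by norm_num) h
  · obtain ⟨h1, h2⟩ := mem_filter.1 hw
    obtain ⟨x, rfl⟩ := rd_zero.1 h2
    have h3 := mem_R1.1 h1
    rw [qf_smul] at h3
    push_cast at h3
    exact ⟨x, mem_R1.2 (by omega), rfl⟩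

theorem sum_ad (f : Fin 8 → ℤ) : ∑ k, f (ad k) = ∑ k, f k :=
  Equiv.sum_comp (Function.Involutive.toPerm ad ad_ad) f

theorem sum_cnt (u : ZMod 7 × ZMod 7 × ZMod 7) (x : ℤ) :
    ∑ k, (if Mk k u = 0 then x else 0) = cnt u * x := by
  rw [← sum_filter, sum_const, cnt, nsmul_eq_mul]

theorem cnt_zero : cnt (0 : ZMod 7 × ZMod 7 × ZMod 7) = 8 := by decide +kernel

theorem rowEIZ7 : RowEIZ7 := by
  classical
  intro φ N h
  let ψ : V → ℤ := fun u => φ (H97.em u)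
  have hψ : ∀ u, ψ ((7 : ℤ) • u) = ψ u := by
    intro u
    have : H97.em ((7 : ℤ) • u) = (7 : ℤ) • H97.em u := by
      simp only [H97.em]
      refine Prod.ext ?_ (Prod.ext ?_ ?_) <;> simp
      ring
    simp only [ψ, this, h.hom 7 _ (by norm_num)]
  have h2 : ((8 : ℤ) - ch N) * ∑ u ∈ R1 N, (if rd u = 0 then ψ u else 0) =
      if 49 ∣ N then 7 * THF φ (N / 49) else 0 := by
    by_cases h7 : 49 ∣ N
    · rw [if_pos h7]
      obtain ⟨m, rfl⟩ := h7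
      have h0 : ((49 * m : ℕ) : ZMod 7) = 0 := by
        rw [ZMod.natCast_eq_zero_iff]
        exact Dvd.dvd.mul_right (by norm_num) m
      rw [sum_seven, Nat.mul_div_cancel_left _ (by norm_num), th_eq, h0]
      simp only [hψ]
      simp [ch, ψ]
    · rw [if_neg h7, sum_eq_zero fun u hu => if_neg fun h0 => ?_, mul_zero]
      obtain ⟨x, rfl⟩ := rd_zero.1 h0
      have h3 := mem_R1.1 hu
      rw [qf_smul] at h3
      have : ((49 : ℕ) : ℤ) ∣ (N : ℤ) := ⟨qf x, by rw [← h3]; norm_num⟩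
      exact h7 (by exact_mod_cast this)
  have h3 : ∀ w ∈ R1 (49 * N),
      ∑ k, (if ∃ x, Mk (ad k) w = (49 : ℤ) • x then ψ w else 0) = ψ w + if rd w = 0 then
        (∑ k, if ∃ x, Mk k w = (49 : ℤ) • x then ψ w else 0) - ψ w else 0 := by
    intro w hw
    rw [sum_ad fun k => if ∃ x, Mk k w = (49 : ℤ) • x then ψ w else 0]
    by_cases h0 : rd w = 0
    · rw [if_pos h0, add_sub_cancel]
    · have hq : 49 ∣ qf w := ⟨N, by rw [mem_R1.1 hw]; push_cast; rfl⟩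
      have h4 : ∀ k, (∃ x, Mk k w = (49 : ℤ) • x) ↔ Mk k (rd w) = 0 := fun k =>
        ⟨fun ⟨x, hx⟩ => (rd_Mk k w).symm.trans (rd_zero.2 ⟨(7 : ℤ) • x, by
          rw [hx, smul_smul]; norm_num⟩), lift49 k hq h0⟩
      have h5 : qf (rd w) = 0 := (rd_qf w).trans
        ((ZMod.intCast_zmod_eq_zero_iff_dvd _ 7).2 (Dvd.dvd.trans (by norm_num) hq))
      have h6 : cnt (rd w) = ch (qf (rd w)) := key7 _ _ _ h0
      simp only [h4]
      rw [if_neg h0, sum_cnt, h6, h5]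
      simp [ch]
  have h4 : ∀ u ∈ R1 N,
      (∑ k, if ∃ x, Mk k ((7 : ℤ) • u) = (49 : ℤ) • x then ψ ((7 : ℤ) • u) else 0) -
        ψ ((7 : ℤ) • u) = (ch N - 1) * ψ u +
          ((8 : ℤ) - ch N) * if rd u = 0 then ψ u else 0 := by
    intro u hu
    have h5 : ∀ k, (∃ x, Mk k ((7 : ℤ) • u) = (49 : ℤ) • x) ↔ Mk k (rd u) = 0 := by
      intro k
      rw [← rd_Mk, rd_zero, Mk_smul]
      refine exists_congr fun x => ⟨fun hx => smul_inj (s := 7) (by norm_num) ?_, fun hx => ?_⟩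
      · rw [hx, smul_smul]
        norm_num
      · rw [hx, smul_smul]
        norm_num
    simp only [h5, hψ]
    rw [sum_cnt]
    by_cases h0 : rd u = 0
    · rw [if_pos h0, h0, cnt_zero]
      push_cast
      ring
    · have h6 : cnt (rd u) = ch (qf (rd u)) := key7 _ _ _ h0
      rw [if_neg h0, h6, rd_qf, mem_R1.1 hu, Int.cast_natCast]
      ring
  refine ⟨ch N - 1, ?_⟩
  rw [th_eq, th_eq φ (49 * N), th_eq φ N, ← h2]
  simp only [t7_eq h]
  rw [sum_comm]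
  change ∑ k, ∑ u ∈ R1 N, ψ (Mk k u) = _
  simp only [sum_Mk]
  rw [sum_comm, sum_congr rfl h3, sum_add_distrib, sum_seven, sum_congr rfl h4,
    sum_add_distrib, ← mul_sum, ← mul_sum, add_assoc]

end Pool.Agent.MP_5f72fe_nt.H85
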